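import Mathlib
import Pool.Agent.Lib.PiTranscendental
import Pool.Agent.Lib.AlgElim
import Pool.Agent.Lib.GammaDerivs
import Pool.Agent.Lib.WeightedPlace

/-!
# At most two of `γ`, `ζ(3)`, `ζ(3)/π³`, `Γ⁽ᵏ⁾(1)`, `Γ⁽ᵏ⁾(2)`, … are algebraic (`k = 3, 4`)
-/

open Pool.Agent.Lib.AlgElim Pool.Agent.Lib.WeightedPlace Pool.Agent.Lib.GammaDerivs

namespace Pool.Agent.Results.MP_e48a95_nt.ThreeNumbers

/-- `ζ(3)`. -/
noncomputable def zetaThree : ℝ := ∑' i : ℕ, 1 / ((i : ℝ) + 1) ^ 3

/-- The sequence `γ, ζ(3), ζ(3)/π³, Γ⁽ᵏ⁾(1), Γ⁽ᵏ⁾(2), Γ⁽ᵏ⁾(3), …`. -/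
noncomputable def number (k : ℕ) : ℕ → ℝ
  | 0 => Real.eulerMascheroniConstant
  | 1 => zetaThree
  | 2 => zetaThree / Real.pi ^ 3
  | n + 3 => iteratedDeriv k Real.Gamma ((n : ℝ) + 1)

/-! ### Rational partial sums -/

/-- Strict convexity, left half. -/
lemma slope_lt {n m : ℕ} (h : n < m) :
    (part 1 m ^ 2 - part 2 m) - (part 1 n ^ 2 - part 2 n) <
      2 * part 1 m * (part 1 m - part 1 n) := by
  have h1 : part 2 n < part 2 m := by
    induction m with
    | zero => omega
    | succ m ih =>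
      have hpos : (0 : ℚ) < 1 / ((m : ℚ) + 1) ^ 2 := by positivity
      rcases Nat.lt_succ_iff_lt_or_eq.1 h with h' | h'
      · have := ih h'
        simp only [part]
        linarith
      · subst h'
        simp only [part]
        linarith
  nlinarith [sq_nonneg (part 1 m - part 1 n)]

lemma part_one_lt {n m : ℕ} (h : n < m) : part 1 n < part 1 m := by
  induction m with
  | zero => omega
  | succ m ih =>
    have hpos : (0 : ℚ) < 1 / ((m : ℚ) + 1) ^ 1 := by positivity
    rcases Nat.lt_succ_iff_lt_or_eq.1 h with h' | h'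
    · have := ih h'
      simp only [part]
      linarith
    · subst h'
      simp only [part]
      linarith

/-- Convexity, right half. -/
lemma le_slope {m l : ℕ} (h : m ≤ l) :
    2 * part 1 m * (part 1 l - part 1 m) ≤
      (part 1 l ^ 2 - part 2 l) - (part 1 m ^ 2 - part 2 m) := by
  have h1 : part 2 l - part 2 m ≤ (part 1 l - part 1 m) ^ 2 ∧ part 1 m ≤ part 1 l := by
    induction l, h using Nat.le_induction with
    | base => simp
    | succ l _ ih =>
      obtain ⟨ih1, ih2⟩ := ih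
      have hpos : (0 : ℚ) < 1 / ((l : ℚ) + 1) := by positivity
      simp only [part, pow_one]
      have e : (1 : ℚ) / ((l : ℚ) + 1) ^ 2 = (1 / ((l : ℚ) + 1)) ^ 2 := by rw [div_pow, one_pow]
      rw [e]
      constructor
      · nlinarith
      · linarith
  nlinarith [h1.1]

/-- Three points `(aᵢ, aᵢ² - bᵢ)` with `n < m < l` are not collinear. -/
lemma not_collinear {n m l : ℕ} (h1 : n < m) (h2 : m < l) :
    ((part 1 m ^ 2 - part 2 m) - (part 1 n ^ 2 - part 2 n)) * (part 1 l - part 1 m) ≠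
    ((part 1 l ^ 2 - part 2 l) - (part 1 m ^ 2 - part 2 m)) * (part 1 m - part 1 n) := by
  have e1 := slope_lt h1
  have e2 := le_slope h2.le
  have e3 := part_one_lt h1
  have e4 := part_one_lt h2
  apply ne_of_lt
  calc _ < 2 * part 1 m * (part 1 m - part 1 n) * (part 1 l - part 1 m) :=
        mul_lt_mul_of_pos_right e1 (by linarith)
    _ = 2 * part 1 m * (part 1 l - part 1 m) * (part 1 m - part 1 n) := by ring
    _ ≤ _ := mul_le_mul_of_nonneg_right e2 (by linarith)

/-! ### The place -/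

variable {g x Z : ℂ} (P : Place ![g, x, Z] ![1, 2, 3])

/-- A rational number in the valuation ring. -/
noncomputable def Q (q : ℚ) : P.V := P.A (q : ℂ) (isAlgebraic_rat q)

lemma coe_Q (q : ℚ) : P.V.subtype (Q P q) = q := rfl
lemma coe_T : P.V.subtype P.T = P.t := rfl
lemma coe_A (a : ℂ) (ha : IsAlgebraic ℚ a) : P.V.subtype (P.A a ha) = a := rfl
lemma coe_X0 : P.V.subtype (P.X 0) = g * P.t := by simp [Place.X]
lemma coe_X1 : P.V.subtype (P.X 1) = x * P.t ^ 2 := by simp [Place.X]
lemma coe_X2 : P.V.subtype (P.X 2) = Z * P.t ^ 3 := by simp [Place.X]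

lemma res_Q_ne {q : ℚ} (hq : q ≠ 0) : P.res (Q P q) ≠ 0 := by
  intro h
  apply hq
  have := P.res_A_eq_zero _ h
  exact_mod_cast this

/-- `Γ‴(n+1)/n!` in terms of `g = γ`, `x = ζ(2)`, `Z = ζ(3)`. -/
noncomputable def W3 (g x Z : ℂ) (n : ℕ) : ℂ :=
  -2 * (Z - part 3 n) + 3 * (part 1 n - g) * (x - part 2 n) + (part 1 n - g) ^ 3

/-- `Γ⁗(n+1)/n!` in terms of `g = γ`, `x = ζ(2)`, `Z = ζ(3)`. -/
noncomputable def W4 (g x Z : ℂ) (n : ℕ) : ℂ :=
  6 * (2 / 5 * x ^ 2 - part 4 n) - 8 * (part 1 n - g) * (Z - part 3 n) + 3 * (x - part 2 n) ^ 2 +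
    6 * (part 1 n - g) ^ 2 * (x - part 2 n) + (part 1 n - g) ^ 4

lemma lead3_1 {n : ℕ} (h : IsAlgebraic ℚ (W3 g x Z n)) :
    2 * P.res (P.X 2) + 3 * P.res (P.X 0) * P.res (P.X 1) + P.res (P.X 0) ^ 3 = 0 := by
  have key : P.A _ h * P.T ^ 3 = -2 * (P.X 2 - Q P (part 3 n) * P.T ^ 3) +
      3 * (Q P (part 1 n) * P.T - P.X 0) * (P.X 1 - Q P (part 2 n) * P.T ^ 2) +
      (Q P (part 1 n) * P.T - P.X 0) ^ 3 := by
    apply P.V.subtype_injective
    simp only [map_mul, map_pow, map_add, map_sub, map_neg, map_ofNat, coe_X0, coe_X1, coe_X2,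
      coe_A, coe_T, coe_Q, W3]
    ring
  have h2 := congrArg P.res key
  simp only [map_mul, map_pow, map_add, map_sub, map_neg, map_ofNat, P.res_T] at h2
  linear_combination h2

lemma lead3_2 {n m : ℕ} (hnm : n < m) (hn : IsAlgebraic ℚ (W3 g x Z n))
    (hm : IsAlgebraic ℚ (W3 g x Z m)) :
    P.res (P.X 1) + P.res (P.X 0) ^ 2 = 0 := by
  set a := part 1 n with ha
  set b := part 2 n with hb
  set c := part 3 n with hc
  set a' := part 1 m with ha'
  set b' := part 2 m with hb'
  set c' := part 3 m with hc'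
  have key : P.A _ (hm.sub hn) * P.T ^ 2 = Q P (3 * (a' - a)) * (P.X 1 + P.X 0 ^ 2) +
      P.T * P.X 0 * Q P (3 * (b' - b) - 3 * (a' ^ 2 - a ^ 2)) +
      P.T ^ 2 * Q P (2 * (c' - c) - 3 * (a' * b' - a * b) + a' ^ 3 - a ^ 3) := by
    apply P.V.subtype_injective
    simp only [map_mul, map_pow, map_add, coe_X0, coe_X1, coe_A, coe_T, coe_Q, W3]
    push_cast
    ring
  have h2 := congrArg P.res key
  simp only [map_mul, map_pow, map_add, P.res_T] at h2
  have h3 : P.res (Q P (3 * (a' - a))) ≠ 0 := by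
    apply res_Q_ne
    have := part_one_lt hnm
    rw [← ha, ← ha'] at this
    intro h0
    linarith
  have h4 : P.res (Q P (3 * (a' - a))) * (P.res (P.X 1) + P.res (P.X 0) ^ 2) = 0 := by
    linear_combination -h2
  exact (mul_eq_zero.1 h4).resolve_left h3

/-- the coefficient of `g` in `(W3 m - W3 n)` -/
lemma diff3 (g x Z : ℂ) (n m : ℕ) : W3 g x Z m - W3 g x Z n =
    3 * (part 1 m - part 1 n) * (x + g ^ 2) +
      (3 * (part 2 m - part 2 n) - 3 * (part 1 m ^ 2 - part 1 n ^ 2)) * g +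
      (2 * (part 3 m - part 3 n) - 3 * (part 1 m * part 2 m - part 1 n * part 2 n) +
        part 1 m ^ 3 - part 1 n ^ 3) := by
  unfold W3
  ring

lemma lead3_3 {n m l : ℕ} (hnm : n < m) (hml : m < l) (hn : IsAlgebraic ℚ (W3 g x Z n))
    (hm : IsAlgebraic ℚ (W3 g x Z m)) (hl : IsAlgebraic ℚ (W3 g x Z l)) :
    P.res (P.X 0) = 0 := by
  have hnc := not_collinear hnm hml
  set e : ℚ := (3 * (part 2 m - part 2 n) - 3 * (part 1 m ^ 2 - part 1 n ^ 2)) *
    (part 1 l - part 1 m) -
    (3 * (part 2 l - part 2 m) - 3 * (part 1 l ^ 2 - part 1 m ^ 2)) * (part 1 m - part 1 n) with he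
  have he0 : e ≠ 0 := by
    intro h0
    apply hnc
    rw [he] at h0
    linarith
  have halg : IsAlgebraic ℚ ((e : ℂ) * g) := by
    have h1 := (hm.sub hn).mul (isAlgebraic_rat (E := ℂ) (part 1 l - part 1 m))
    have h2 := (hl.sub hm).mul (isAlgebraic_rat (E := ℂ) (part 1 m - part 1 n))
    have h3 := (h1.sub h2).sub (isAlgebraic_rat (E := ℂ)
      ((2 * (part 3 m - part 3 n) - 3 * (part 1 m * part 2 m - part 1 n * part 2 n) +
        part 1 m ^ 3 - part 1 n ^ 3) * (part 1 l - part 1 m) -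
       (2 * (part 3 l - part 3 m) - 3 * (part 1 l * part 2 l - part 1 m * part 2 m) +
        part 1 l ^ 3 - part 1 m ^ 3) * (part 1 m - part 1 n)))
    rw [diff3, diff3] at h3
    refine (congrArg (IsAlgebraic ℚ) ?_).mp h3
    rw [he]
    push_cast
    ring
  have hg : IsAlgebraic ℚ g := by
    have h1 : g = ((e⁻¹ : ℚ) : ℂ) * ((e : ℂ) * g) := by
      have : (e : ℂ) ≠ 0 := by exact_mod_cast he0
      push_cast
      field_simp
    rw [h1]
    exact (Pool.Agent.Lib.AlgElim.isAlgebraic_rat (E := ℂ) _).mul halg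
  exact P.res_X_of_alg (i := 0) (by norm_num) (by simpa using hg)

lemma lead4_1 {n : ℕ} (h : IsAlgebraic ℚ (W4 g x Z n)) :
    27 * P.res (P.X 1) ^ 2 + 40 * P.res (P.X 0) * P.res (P.X 2) +
      30 * P.res (P.X 0) ^ 2 * P.res (P.X 1) + 5 * P.res (P.X 0) ^ 4 = 0 := by
  have key : 5 * (P.A _ h * P.T ^ 4) = 30 * (- Q P (part 4 n) * P.T ^ 4) + 12 * P.X 1 ^ 2
      - 40 * (Q P (part 1 n) * P.T - P.X 0) * (P.X 2 - Q P (part 3 n) * P.T ^ 3) +
      15 * (P.X 1 - Q P (part 2 n) * P.T ^ 2) ^ 2 +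
      30 * (Q P (part 1 n) * P.T - P.X 0) ^ 2 * (P.X 1 - Q P (part 2 n) * P.T ^ 2) +
      5 * (Q P (part 1 n) * P.T - P.X 0) ^ 4 := by
    apply P.V.subtype_injective
    simp only [map_mul, map_pow, map_add, map_sub, map_neg, map_ofNat, coe_X0, coe_X1, coe_X2,
      coe_A, coe_T, coe_Q, W4]
    ring
  have h2 := congrArg P.res key
  simp only [map_mul, map_pow, map_add, map_sub, map_neg, map_ofNat, P.res_T] at h2
  linear_combination -h2

lemma diff4 (g x Z : ℂ) (n m : ℕ) : W4 g x Z m - W4 g x Z n =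
    -(part 1 m - part 1 n) * (8 * Z + 12 * g * x + 4 * g ^ 3) +
      6 * ((part 1 m ^ 2 - part 1 n ^ 2) - (part 2 m - part 2 n)) * (x + g ^ 2) +
      (-8 * (part 3 m - part 3 n) + 12 * (part 1 m * part 2 m - part 1 n * part 2 n) -
        4 * (part 1 m ^ 3 - part 1 n ^ 3)) * g +
      (-6 * (part 4 m - part 4 n) + 8 * (part 1 m * part 3 m - part 1 n * part 3 n) +
        3 * (part 2 m ^ 2 - part 2 n ^ 2) - 6 * (part 1 m ^ 2 * part 2 m - part 1 n ^ 2 * part 2 n) +
        part 1 m ^ 4 - part 1 n ^ 4) := by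
  unfold W4
  ring

lemma lead4_2 {n m : ℕ} (hnm : n < m) (hn : IsAlgebraic ℚ (W4 g x Z n))
    (hm : IsAlgebraic ℚ (W4 g x Z m)) :
    2 * P.res (P.X 2) + 3 * P.res (P.X 0) * P.res (P.X 1) + P.res (P.X 0) ^ 3 = 0 := by
  have key : P.A _ (hm.sub hn) * P.T ^ 3 =
      Q P (-(part 1 m - part 1 n)) * (8 * P.X 2 + 12 * P.X 0 * P.X 1 + 4 * P.X 0 ^ 3) +
      P.T * (Q P (6 * ((part 1 m ^ 2 - part 1 n ^ 2) - (part 2 m - part 2 n))) *
        (P.X 1 + P.X 0 ^ 2)) +
      P.T * (P.T * P.X 0 * Q P (-8 * (part 3 m - part 3 n) +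
        12 * (part 1 m * part 2 m - part 1 n * part 2 n) -
        4 * (part 1 m ^ 3 - part 1 n ^ 3))) +
      P.T ^ 3 * Q P (-6 * (part 4 m - part 4 n) + 8 * (part 1 m * part 3 m - part 1 n * part 3 n) +
        3 * (part 2 m ^ 2 - part 2 n ^ 2) - 6 * (part 1 m ^ 2 * part 2 m - part 1 n ^ 2 * part 2 n) +
        part 1 m ^ 4 - part 1 n ^ 4) := by
    apply P.V.subtype_injective
    simp only [map_mul, map_pow, map_add, map_ofNat, coe_X0, coe_X1, coe_X2,
      coe_A, coe_T, coe_Q, diff4]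
    push_cast
    ring
  have h2 := congrArg P.res key
  simp only [map_mul, map_pow, map_add, map_ofNat, P.res_T] at h2
  have h3 : P.res (Q P (-(part 1 m - part 1 n))) ≠ 0 := by
    apply res_Q_ne
    have := part_one_lt hnm
    intro h0
    linarith
  have h4 : P.res (Q P (-(part 1 m - part 1 n))) * (8 * P.res (P.X 2) +
      12 * P.res (P.X 0) * P.res (P.X 1) + 4 * P.res (P.X 0) ^ 3) = 0 := by
    linear_combination -h2
  have h5 := (mul_eq_zero.1 h4).resolve_left h3
  linear_combination (1 / 4) * h5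

lemma lead4_3 {n m l : ℕ} (hnm : n < m) (hml : m < l) (hn : IsAlgebraic ℚ (W4 g x Z n))
    (hm : IsAlgebraic ℚ (W4 g x Z m)) (hl : IsAlgebraic ℚ (W4 g x Z l)) :
    P.res (P.X 1) + P.res (P.X 0) ^ 2 = 0 := by
  have hnc := not_collinear hnm hml
  set e : ℚ := 6 * ((part 1 m ^ 2 - part 1 n ^ 2) - (part 2 m - part 2 n)) *
    (part 1 l - part 1 m) -
    6 * ((part 1 l ^ 2 - part 1 m ^ 2) - (part 2 l - part 2 m)) * (part 1 m - part 1 n) with he
  have he0 : e ≠ 0 := by
    intro h0
    apply hnc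
    rw [he] at h0
    linarith
  set e1 : ℚ := (-8 * (part 3 m - part 3 n) + 12 * (part 1 m * part 2 m - part 1 n * part 2 n) -
        4 * (part 1 m ^ 3 - part 1 n ^ 3)) * (part 1 l - part 1 m) -
        (-8 * (part 3 l - part 3 m) + 12 * (part 1 l * part 2 l - part 1 m * part 2 m) -
        4 * (part 1 l ^ 3 - part 1 m ^ 3)) * (part 1 m - part 1 n) with he1
  set e2 : ℚ := (-6 * (part 4 m - part 4 n) + 8 * (part 1 m * part 3 m - part 1 n * part 3 n) +
        3 * (part 2 m ^ 2 - part 2 n ^ 2) - 6 * (part 1 m ^ 2 * part 2 m - part 1 n ^ 2 * part 2 n) +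
        part 1 m ^ 4 - part 1 n ^ 4) * (part 1 l - part 1 m) -
        (-6 * (part 4 l - part 4 m) + 8 * (part 1 l * part 3 l - part 1 m * part 3 m) +
        3 * (part 2 l ^ 2 - part 2 m ^ 2) - 6 * (part 1 l ^ 2 * part 2 l - part 1 m ^ 2 * part 2 m) +
        part 1 l ^ 4 - part 1 m ^ 4) * (part 1 m - part 1 n) with he2
  have h1 := (hm.sub hn).mul (isAlgebraic_rat (E := ℂ) (part 1 l - part 1 m))
  have h2 := (hl.sub hm).mul (isAlgebraic_rat (E := ℂ) (part 1 m - part 1 n))
  have h3 := h1.sub h2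
  have key : P.A _ h3 * P.T ^ 2 = Q P e * (P.X 1 + P.X 0 ^ 2) + P.T * (Q P e1 * P.X 0) +
      P.T ^ 2 * Q P e2 := by
    apply P.V.subtype_injective
    simp only [map_mul, map_pow, map_add, coe_X0, coe_X1, coe_A, coe_T, coe_Q, diff4]
    rw [he, he1, he2]
    push_cast
    ring
  have h4 := congrArg P.res key
  simp only [map_mul, map_pow, map_add, P.res_T] at h4
  have h5 : P.res (Q P e) * (P.res (P.X 1) + P.res (P.X 0) ^ 2) = 0 := by
    linear_combination -h4
  exact (mul_eq_zero.1 h5).resolve_left (res_Q_ne P he0)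

/-! ### The end of the proof -/

lemma alg_cast {r : ℝ} (h : IsAlgebraic ℚ r) : IsAlgebraic ℚ (r : ℂ) :=
  (isAlgebraic_algebraMap_iff (R := ℚ) (S := ℝ) (A := ℂ) (algebraMap ℝ ℂ).injective).2 h

lemma alg_of_cast {r : ℝ} (h : IsAlgebraic ℚ (r : ℂ)) : IsAlgebraic ℚ r :=
  (isAlgebraic_algebraMap_iff (R := ℚ) (S := ℝ) (A := ℂ) (algebraMap ℝ ℂ).injective).1 h

lemma T_three_one : T 3 1 = zetaThree := rfl

lemma not_alg_zeta_two : ¬ IsAlgebraic ℚ (T 2 1) := by
  intro h
  rw [T_two_one] at h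
  apply Pool.Agent.Lib.PiTranscendental.transcendental_real_pi
  apply IsAlgebraic.of_pow (n := 2) (by norm_num)
  have : Real.pi ^ 2 = (Real.pi ^ 2 / 6) * (6 : ℕ) := by push_cast; ring
  rw [this]
  exact h.mul (Pool.Agent.Lib.AlgElim.isAlgebraic_nat 6)

lemma zetaThree_pos : 0 < zetaThree := by
  rw [← T_three_one]
  exact (summable_T 3 (by norm_num) one_pos).tsum_pos (fun i => by positivity) 0 (by positivity)

lemma zetaThree_le : zetaThree ≤ T 2 1 := by
  rw [← T_three_one]
  apply Summable.tsum_le_tsum _ (summable_T 3 (by norm_num) one_pos)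
    (summable_T 2 (by norm_num) one_pos)
  intro i
  apply one_div_le_one_div_of_le (by positivity)
  apply pow_le_pow_right₀ _ (by norm_num)
  have : (0 : ℝ) ≤ i := Nat.cast_nonneg i
  linarith

lemma one_lt_zeta_two : 1 < T 2 1 := by
  rw [T_two_one]
  have := Real.pi_gt_three
  nlinarith

/-- `κ = 216 ρ²`, where `ρ = ζ(3)/π³`; then `ζ(3)² = κ ζ(2)³`. -/
noncomputable def kappa : ℝ := 216 * (zetaThree / Real.pi ^ 3) ^ 2

lemma kappa_eq : zetaThree ^ 2 = kappa * T 2 1 ^ 3 := by
  unfold kappa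
  rw [T_two_one]
  have := Real.pi_pos
  field_simp
  ring

lemma kappa_nonneg : 0 ≤ kappa := by unfold kappa; positivity

lemma kappa_le : kappa ≤ 1 := by
  have h1 := kappa_eq
  have h2 := one_lt_zeta_two
  have h3 := zetaThree_le
  have h4 := zetaThree_pos
  by_contra h5
  have h5 : 1 < kappa := not_le.1 h5
  have h6 : zetaThree ^ 2 ≤ T 2 1 ^ 2 := pow_le_pow_left₀ h4.le h3 2
  have h7 : T 2 1 ^ 2 < T 2 1 ^ 3 := pow_lt_pow_right₀ h2 (by norm_num)
  have h8 : T 2 1 ^ 3 < kappa * T 2 1 ^ 3 := by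
    have : 0 < T 2 1 ^ 3 := by positivity
    nlinarith
  linarith

lemma alg_kappa (h : IsAlgebraic ℚ (zetaThree / Real.pi ^ 3)) : IsAlgebraic ℚ kappa := by
  unfold kappa
  exact (isAlgebraic_ofNat 216).mul (h.pow 2)

lemma not_both (h1 : IsAlgebraic ℚ zetaThree) (h2 : IsAlgebraic ℚ (zetaThree / Real.pi ^ 3)) :
    False := by
  apply Pool.Agent.Lib.PiTranscendental.transcendental_real_pi
  apply IsAlgebraic.of_pow (n := 3) (by norm_num)
  have h3 : Real.pi ^ 3 = zetaThree / (zetaThree / Real.pi ^ 3) := by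
    have := Real.pi_pos
    have := zetaThree_pos
    field_simp
  rw [h3]
  exact isAlgebraic_div h1 h2

/-- The three basic numbers. -/
noncomputable abbrev gC : ℂ := (Real.eulerMascheroniConstant : ℝ)
/-- The three basic numbers. -/
noncomputable abbrev xC : ℂ := (T 2 1 : ℝ)
/-- The three basic numbers. -/
noncomputable abbrev ZC : ℂ := (zetaThree : ℝ)

lemma W3_eq (n : ℕ) : ((iteratedDeriv 3 Real.Gamma ((n : ℝ) + 1) : ℝ) : ℂ) =
    W3 gC xC ZC n * (n.factorial : ℂ) := by
  rw [iteratedDeriv_Gamma_three (by positivity), T_nat 3 n (by norm_num), T_nat 2 n le_rfl,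
    psi_nat, T_three_one, Real.Gamma_nat_eq_factorial]
  unfold W3
  push_cast
  ring

lemma T_four_eq : T 4 1 = 2 / 5 * T 2 1 ^ 2 := by
  rw [T_four_one, T_two_one]
  ring

lemma W4_eq (n : ℕ) : ((iteratedDeriv 4 Real.Gamma ((n : ℝ) + 1) : ℝ) : ℂ) =
    W4 gC xC ZC n * (n.factorial : ℂ) := by
  rw [iteratedDeriv_Gamma_four (by positivity), T_nat 4 n (by norm_num), T_nat 3 n (by norm_num),
    T_nat 2 n le_rfl, psi_nat, T_three_one, T_four_eq, Real.Gamma_nat_eq_factorial]
  unfold W4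
  push_cast
  ring

lemma alg_W3 {n : ℕ} (h : IsAlgebraic ℚ (iteratedDeriv 3 Real.Gamma ((n : ℝ) + 1))) :
    IsAlgebraic ℚ (W3 gC xC ZC n) := by
  have h1 := alg_cast h
  rw [W3_eq] at h1
  have h2 : W3 gC xC ZC n = W3 gC xC ZC n * (n.factorial : ℂ) / (n.factorial : ℂ) := by
    have : (n.factorial : ℂ) ≠ 0 := by exact_mod_cast n.factorial_ne_zero
    field_simp
  rw [h2]
  exact isAlgebraic_div h1 (Pool.Agent.Lib.AlgElim.isAlgebraic_nat _)

lemma alg_W4 {n : ℕ} (h : IsAlgebraic ℚ (iteratedDeriv 4 Real.Gamma ((n : ℝ) + 1))) :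
    IsAlgebraic ℚ (W4 gC xC ZC n) := by
  have h1 := alg_cast h
  rw [W4_eq] at h1
  have h2 : W4 gC xC ZC n = W4 gC xC ZC n * (n.factorial : ℂ) / (n.factorial : ℂ) := by
    have : (n.factorial : ℂ) ≠ 0 := by exact_mod_cast n.factorial_ne_zero
    field_simp
  rw [h2]
  exact isAlgebraic_div h1 (Pool.Agent.Lib.AlgElim.isAlgebraic_nat _)

/-- The place. -/
lemma exists_P : Nonempty (Place ![gC, xC, ZC] ![1, 2, 3]) := by
  apply exists_place
  · intro i
    fin_cases i <;> simp
  · refine ⟨1, ?_⟩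
    intro h
    exact not_alg_zeta_two (alg_of_cast h)

section final

variable (P : Place ![gC, xC, ZC] ![1, 2, 3])

lemma contra (h0 : P.res (P.X 0) = 0) (h1 : P.res (P.X 1) = 0) (h2 : P.res (P.X 2) = 0) :
    False := by
  obtain ⟨i, hi⟩ := P.exists_res_ne
  apply hi
  fin_cases i
  · exact h0
  · exact h1
  · exact h2

lemma res_g (h : IsAlgebraic ℚ Real.eulerMascheroniConstant) : P.res (P.X 0) = 0 :=
  P.res_X_of_alg (i := 0) (by norm_num) (by simpa using alg_cast h)

lemma res_Z (h : IsAlgebraic ℚ zetaThree) : P.res (P.X 2) = 0 :=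
  P.res_X_of_alg (i := 2) (by simp) (by simpa using alg_cast h)

lemma res_rho (h : IsAlgebraic ℚ (kappa : ℂ)) :
    P.res (P.X 2) ^ 2 = P.res (P.A _ h) * P.res (P.X 1) ^ 3 := by
  have key : P.X 2 ^ 2 = P.A _ h * P.X 1 ^ 3 := by
    apply P.V.subtype_injective
    simp only [map_mul, map_pow, coe_X1, coe_X2, coe_A]
    have h1 : (ZC : ℂ) ^ 2 = (kappa : ℂ) * xC ^ 3 := by exact_mod_cast kappa_eq
    linear_combination P.t ^ 6 * h1
  have h2 := congrArg P.res key
  simpa only [map_mul, map_pow] using h2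

lemma res_alg_ne {r : ℝ} (h : IsAlgebraic ℚ (r : ℂ)) (hr : r ≠ 0) : P.res (P.A _ h) ≠ 0 := by
  intro h0
  apply hr
  have := P.res_A_eq_zero _ h0
  exact_mod_cast this

/-- case `ρ, W, W`, third derivative -/
lemma final3 (hk : IsAlgebraic ℚ (kappa : ℂ))
    (h1 : 2 * P.res (P.X 2) + 3 * P.res (P.X 0) * P.res (P.X 1) + P.res (P.X 0) ^ 3 = 0)
    (h2 : P.res (P.X 1) + P.res (P.X 0) ^ 2 = 0) : False := by
  have h3 := res_rho P hk
  set G := P.res (P.X 0)
  set X := P.res (P.X 1)
  set Z := P.res (P.X 2)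
  set K := P.res (P.A _ hk) with hK
  have h4 : Z = G ^ 3 := by linear_combination (1 / 2) * h1 - (3 / 2) * G * h2
  have h5 : X = -G ^ 2 := by linear_combination h2
  have h6 : (1 + K) * G ^ 6 = 0 := by
    rw [h4, h5] at h3
    linear_combination h3
  have hk1 : IsAlgebraic ℚ ((1 + kappa : ℝ) : ℂ) := by
    push_cast
    exact isAlgebraic_one.add hk
  have h7 : 1 + K ≠ 0 := by
    have h8 := res_alg_ne P hk1 (by have := kappa_nonneg; positivity)
    have h9 : P.A _ hk1 = 1 + P.A _ hk := by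
      apply P.V.subtype_injective
      simp only [map_add, map_one, coe_A]
      push_cast
      ring
    rw [h9, map_add, map_one] at h8
    exact h8
  have h8 : G = 0 := by
    have := (mul_eq_zero.1 h6).resolve_left h7
    exact pow_eq_zero_iff (by norm_num) |>.1 this
  apply contra P h8
  · change X = 0
    rw [h5, h8]; ring
  · change Z = 0
    rw [h4, h8]; ring

/-- case `ρ, W, W`, fourth derivative -/
lemma final4 (hk : IsAlgebraic ℚ (kappa : ℂ))
    (h1 : 27 * P.res (P.X 1) ^ 2 + 40 * P.res (P.X 0) * P.res (P.X 2) +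
      30 * P.res (P.X 0) ^ 2 * P.res (P.X 1) + 5 * P.res (P.X 0) ^ 4 = 0)
    (h2 : 2 * P.res (P.X 2) + 3 * P.res (P.X 0) * P.res (P.X 1) + P.res (P.X 0) ^ 3 = 0) :
    False := by
  have h3 := res_rho P hk
  set G := P.res (P.X 0) with hG
  set X := P.res (P.X 1) with hX
  set Z := P.res (P.X 2) with hZ
  set K := P.res (P.A _ hk) with hK
  have hA : 9 * X ^ 2 - 10 * G ^ 2 * X - 5 * G ^ 4 = 0 := by
    linear_combination (1 / 3) * h1 - (20 / 3) * G * h2
  have hC : G ^ 2 * (3 * X + G ^ 2) ^ 2 = 4 * K * X ^ 3 := by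
    linear_combination 4 * h3 + (3 * G * X + G ^ 3 - 2 * Z) * h2
  have hD : X ^ 2 * (7 * G ^ 2 + (18 - 10 * K) * X) = 0 := by
    linear_combination (5 / 2) * hC + (1 / 2) * (G ^ 2 + 4 * X) * hA
  have hX0 : X = 0 := by
    by_contra hne
    have hE := (mul_eq_zero.1 hD).resolve_left (pow_ne_zero 2 hne)
    have hF : (81 + 1100 * K - 500 * K ^ 2) * X ^ 2 = 0 := by
      linear_combination 49 * hA + (70 * X + 5 * (7 * G ^ 2 - (18 - 10 * K) * X)) * hE
    have hk1 : IsAlgebraic ℚ ((81 + 1100 * kappa - 500 * kappa ^ 2 : ℝ) : ℂ) := by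
      push_cast
      exact ((isAlgebraic_ofNat 81).add ((isAlgebraic_ofNat 1100).mul hk)).sub
        ((isAlgebraic_ofNat 500).mul (hk.pow 2))
    have h8 := res_alg_ne P hk1 (by
      have e1 := kappa_nonneg
      have e2 := kappa_le
      apply ne_of_gt
      nlinarith)
    have h9 : P.A _ hk1 = 81 + 1100 * P.A _ hk - 500 * P.A _ hk ^ 2 := by
      apply P.V.subtype_injective
      simp only [map_add, map_sub, map_mul, map_pow, map_ofNat, coe_A]
      push_cast
      ring
    rw [h9] at h8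
    simp only [map_add, map_sub, map_mul, map_pow, map_ofNat] at h8
    exact hne (pow_eq_zero_iff (by norm_num) |>.1 ((mul_eq_zero.1 hF).resolve_left h8))
  have hG0 : G = 0 := by
    rw [hX0] at hA
    have : G ^ 4 = 0 := by linear_combination -(1 / 5) * hA
    exact pow_eq_zero_iff (by norm_num) |>.1 this
  have hZ0 : Z = 0 := by
    rw [hX0, hG0] at h2
    linear_combination (1 / 2) * h2
  exact contra P hG0 hX0 hZ0

end final

lemma a_ne_gamma (n : ℕ) : (part 1 n : ℝ) - Real.eulerMascheroniConstant ≠ 0 := by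
  have h1 := Real.one_half_lt_eulerMascheroniConstant
  have h2 := Real.eulerMascheroniConstant_lt_two_thirds
  rcases Nat.eq_zero_or_pos n with rfl | hn
  · simp only [part, Rat.cast_zero]
    intro h
    linarith
  · have h3 : (1 : ℚ) ≤ part 1 n := by
      have e : part 1 1 = 1 := by simp [part]
      rcases Nat.lt_or_ge 1 n with h | h
      · rw [← e]; exact (part_one_lt h).le
      · have : n = 1 := by omega
        rw [this, e]
    have h4 : (1 : ℝ) ≤ (part 1 n : ℝ) := by exact_mod_cast h3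
    intro h
    linarith

/-- case `γ, ζ(3), W`, third derivative -/
lemma direct3 {n : ℕ} (hg : IsAlgebraic ℚ Real.eulerMascheroniConstant)
    (hz : IsAlgebraic ℚ zetaThree) (h : IsAlgebraic ℚ (W3 gC xC ZC n)) : False := by
  apply not_alg_zeta_two
  apply alg_of_cast
  have hg' := alg_cast hg
  have hz' := alg_cast hz
  have hr : ∀ q : ℚ, IsAlgebraic ℚ (q : ℂ) := fun q => Pool.Agent.Lib.AlgElim.isAlgebraic_rat q
  have hne : ((part 1 n : ℂ) - gC) ≠ 0 := by
    intro h0
    apply a_ne_gamma n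
    have h1 : (((part 1 n : ℝ) - Real.eulerMascheroniConstant : ℝ) : ℂ) = 0 := by
      push_cast
      exact h0
    exact_mod_cast h1
  have h1 : xC = (W3 gC xC ZC n + 2 * (ZC - part 3 n) - ((part 1 n : ℂ) - gC) ^ 3) /
      (3 * ((part 1 n : ℂ) - gC)) + part 2 n := by
    unfold W3
    field_simp
    ring
  change IsAlgebraic ℚ xC
  rw [h1]
  refine (isAlgebraic_div ?_ ((isAlgebraic_ofNat 3).mul ((hr _).sub hg'))).add (hr _)
  exact (h.add ((isAlgebraic_ofNat 2).mul (hz'.sub (hr _)))).sub (((hr _).sub hg').pow 3)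

/-- The sequence `γ, ζ(3), ζ(3)/π³, Γ⁽ᵏ⁾(1), Γ⁽ᵏ⁾(2), …` has at most two algebraic members, for
`k = 3` and `k = 4`. -/
theorem result (k : ℕ) (hk : k = 3 ∨ k = 4) :
    ∀ i j l : ℕ, i < j → j < l → ¬ (IsAlgebraic ℚ (number k i) ∧ IsAlgebraic ℚ (number k j) ∧
      IsAlgebraic ℚ (number k l)) := by
  intro i j l hij hjl ⟨hi, hj, hl⟩
  obtain ⟨P⟩ := exists_P
  -- the last member is a derivative
  obtain ⟨n, rfl⟩ | hl2 : (∃ n, l = n + 3) ∨ l = 2 := by
    rcases Nat.lt_or_ge l 3 with h | h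
    · right; omega
    · left; exact ⟨l - 3, by omega⟩
  swap
  · subst hl2
    obtain ⟨rfl, rfl⟩ : i = 0 ∧ j = 1 := by omega
    exact not_both hj hl
  rcases hk with rfl | rfl
  · have hn := alg_W3 hl
    have e1 := lead3_1 P hn
    obtain ⟨m, rfl⟩ | rfl | rfl : (∃ m, j = m + 3) ∨ j = 1 ∨ j = 2 := by
      rcases Nat.lt_or_ge j 3 with h | h
      · right; omega
      · left; exact ⟨j - 3, by omega⟩
    · have hm := alg_W3 hj
      have e2 := lead3_2 P (show m < n by omega) hm hn
      obtain ⟨p, rfl⟩ | rfl | rfl | rfl : (∃ p, i = p + 3) ∨ i = 0 ∨ i = 1 ∨ i = 2 := by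
        rcases Nat.lt_or_ge i 3 with h | h
        · right; omega
        · left; exact ⟨i - 3, by omega⟩
      · have hp := alg_W3 hi
        have e3 := lead3_3 P (show p < m by omega) (show m < n by omega) hp hm hn
        have e4 : P.res (P.X 1) = 0 := by rw [e3] at e2; linear_combination e2
        refine contra P e3 e4 ?_
        rw [e3, e4] at e1
        linear_combination (1 / 2) * e1
      · have e3 := res_g P hi
        have e4 : P.res (P.X 1) = 0 := by rw [e3] at e2; linear_combination e2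
        refine contra P e3 e4 ?_
        rw [e3, e4] at e1
        linear_combination (1 / 2) * e1
      · have e3 := res_Z P hi
        have e4 : P.res (P.X 0) ^ 3 = 0 := by
          rw [e3] at e1
          linear_combination (3 / 2) * P.res (P.X 0) * e2 - (1 / 2) * e1
        have e5 : P.res (P.X 0) = 0 := pow_eq_zero_iff (by norm_num) |>.1 e4
        refine contra P e5 ?_ e3
        rw [e5] at e2
        linear_combination e2
      · exact final3 P (alg_cast (alg_kappa hi)) e1 e2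
    · obtain rfl : i = 0 := by omega
      exact direct3 hi hj hn
    · obtain rfl | rfl : i = 0 ∨ i = 1 := by omega
      · have e3 := res_g P hi
        have e4 : P.res (P.X 2) = 0 := by
          rw [e3] at e1
          linear_combination (1 / 2) * e1
        have hk := alg_cast (alg_kappa hj)
        have e5 := res_rho P hk
        rw [e4] at e5
        have e6 : P.res (P.X 1) = 0 := by
          by_contra hne
          have e7 : kappa ≠ 0 := by
            unfold kappa
            have h1 := Real.pi_pos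
            have h2 := zetaThree_pos
            positivity
          have e8 := res_alg_ne P hk e7
          apply mul_ne_zero e8 (pow_ne_zero 3 hne)
          linear_combination -e5
        exact contra P e3 e6 e4
      · exact not_both hi hj
  · have hn := alg_W4 hl
    have e1 := lead4_1 P hn
    obtain ⟨m, rfl⟩ | rfl | rfl : (∃ m, j = m + 3) ∨ j = 1 ∨ j = 2 := by
      rcases Nat.lt_or_ge j 3 with h | h
      · right; omega
      · left; exact ⟨j - 3, by omega⟩
    · have hm := alg_W4 hj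
      have e2 := lead4_2 P (show m < n by omega) hm hn
      obtain ⟨p, rfl⟩ | rfl | rfl | rfl : (∃ p, i = p + 3) ∨ i = 0 ∨ i = 1 ∨ i = 2 := by
        rcases Nat.lt_or_ge i 3 with h | h
        · right; omega
        · left; exact ⟨i - 3, by omega⟩
      · have hp := alg_W4 hi
        have e3 := lead4_3 P (show p < m by omega) (show m < n by omega) hp hm hn
        have e4 : P.res (P.X 0) ^ 4 = 0 := by
          linear_combination (1 / 42) * e1 - (1 / 42) * 20 * P.res (P.X 0) * e2 -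
            (1 / 42) * (27 * P.res (P.X 1) - 57 * P.res (P.X 0) ^ 2) * e3
        have e5 : P.res (P.X 0) = 0 := pow_eq_zero_iff (by norm_num) |>.1 e4
        have e6 : P.res (P.X 1) = 0 := by rw [e5] at e3; linear_combination e3
        refine contra P e5 e6 ?_
        rw [e5, e6] at e2
        linear_combination (1 / 2) * e2
      · have e3 := res_g P hi
        have e4 : P.res (P.X 1) ^ 2 = 0 := by rw [e3] at e1; linear_combination (1 / 27) * e1
        have e5 : P.res (P.X 1) = 0 := pow_eq_zero_iff (by norm_num) |>.1 e4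
        refine contra P e3 e5 ?_
        rw [e3, e5] at e2
        linear_combination (1 / 2) * e2
      · have e3 := res_Z P hi
        rw [e3] at e1 e2
        have e4 : P.res (P.X 0) * (3 * P.res (P.X 1) + P.res (P.X 0) ^ 2) = 0 := by
          linear_combination e2
        rcases mul_eq_zero.1 e4 with e5 | e5
        · have e6 : P.res (P.X 1) ^ 2 = 0 := by rw [e5] at e1; linear_combination (1 / 27) * e1
          exact contra P e5 (pow_eq_zero_iff (by norm_num) |>.1 e6) e3
        · have e6 : P.res (P.X 1) ^ 2 = 0 := by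
            linear_combination -(1 / 18) * e1 + (1 / 18) * (15 * P.res (P.X 1) +
              5 * P.res (P.X 0) ^ 2) * e5
          have e7 : P.res (P.X 1) = 0 := pow_eq_zero_iff (by norm_num) |>.1 e6
          have e8 : P.res (P.X 0) ^ 2 = 0 := by rw [e7] at e5; linear_combination e5
          exact contra P (pow_eq_zero_iff (by norm_num) |>.1 e8) e7 e3
      · exact final4 P (alg_cast (alg_kappa hi)) e1 e2
    · obtain rfl : i = 0 := by omega
      have e3 := res_g P hi
      have e4 := res_Z P hj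
      have e5 : P.res (P.X 1) ^ 2 = 0 := by rw [e3] at e1; linear_combination (1 / 27) * e1
      exact contra P e3 (pow_eq_zero_iff (by norm_num) |>.1 e5) e4
    · obtain rfl | rfl : i = 0 ∨ i = 1 := by omega
      · have e3 := res_g P hi
        have e5 : P.res (P.X 1) ^ 2 = 0 := by rw [e3] at e1; linear_combination (1 / 27) * e1
        have e6 : P.res (P.X 1) = 0 := pow_eq_zero_iff (by norm_num) |>.1 e5
        have e7 := res_rho P (alg_cast (alg_kappa hj))
        rw [e6] at e7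
        have e8 : P.res (P.X 2) ^ 2 = 0 := by linear_combination e7
        exact contra P e3 e6 (pow_eq_zero_iff (by norm_num) |>.1 e8)
      · exact not_both hi hj

end Pool.Agent.Results.MP_e48a95_nt.ThreeNumbers
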