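import Mathlib
import Pool.Agent.EF.LInd
import Pool.Agent.Lib.IncGamma

/-!
# Integrals tied to `γ` and `ζ(3)` only

For a rational number `0 < r < 1/2` let
`κ_r(x) = exp (-x cos πr) cos (x sin πr) - (1 - 6 r²) exp (-x)` and
`J_j(r) = ∫_1^∞ κ_r(x) (log x)^j dx / x`, for `j = 0, 1, 2`, and let `c_0 = γ`, `c_1 = γ²`,
`c_2 = γ³ + 2 ζ(3)`. For every finite set `P` of pairs `(j, r)` the transcendence degree of
`M(c_j, J_j(r) : (j, r) ∈ P)` over the field `M` generated by all exponentials of algebraic numbers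
is at least `|P|`.
-/

open MeasureTheory Set

namespace Pool.Agent.Results.MP_e48a95_nt.TwistedTails

/-- The kernel `exp (-x cos πr) cos (x sin πr) - (1 - 6 r²) exp (-x)`. -/
noncomputable def kernel (r : ℚ) (x : ℝ) : ℝ :=
  Real.exp (-(x * Real.cos (Real.pi * r))) * Real.cos (x * Real.sin (Real.pi * r)) -
    (1 - 6 * (r : ℝ) ^ 2) * Real.exp (-x)

/-- `J j r = ∫_1^∞ kernel r x (log x)^j dx / x`. -/
noncomputable def J (j : ℕ) (r : ℚ) : ℝ :=
  ∫ x in Ioi (1 : ℝ), kernel r x * Real.log x ^ j / x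

/-- The field generated over `ℚ` by all exponentials of algebraic numbers. -/
noncomputable def M : IntermediateField ℚ ℂ :=
  IntermediateField.adjoin ℚ {x : ℂ | ∃ β : ℂ, IsAlgebraic ℚ β ∧ x = Complex.exp β}

/-- `ζ(3)`. -/
noncomputable def zetaThree : ℝ := ∑' n : ℕ, 1 / ((n : ℝ) + 1) ^ 3

/-! ### The roots of unity -/

/-- `exp (i π r)`. -/
noncomputable def om (r : ℚ) : ℂ := Complex.exp (((Real.pi * r : ℝ) : ℂ) * Complex.I)

lemma om_pow (r : ℚ) : om r ^ (2 * r.den) = 1 := by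
  rw [om, ← Complex.exp_nat_mul, Complex.exp_eq_one_iff]
  refine ⟨r.num, ?_⟩
  have h : ((r.den : ℕ) : ℂ) * (r : ℂ) = (r.num : ℂ) := by
    have := Rat.den_mul_eq_num r
    exact_mod_cast this
  push_cast
  linear_combination (2 * Real.pi * Complex.I) * h

lemma om_alg (r : ℚ) : IsAlgebraic ℚ (om r) := by
  refine IsAlgebraic.of_pow (n := 2 * r.den) (by have := r.pos; omega) ?_
  rw [om_pow]
  exact isAlgebraic_one

lemma om_neg (r : ℚ) : om (-r) = Complex.exp (-(((Real.pi * r : ℝ) : ℂ) * Complex.I)) := by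
  rw [om]
  congr 1
  push_cast
  ring

lemma om_re (r : ℚ) : (om r).re = Real.cos (Real.pi * r) := by
  rw [om, Complex.exp_ofReal_mul_I_re]

lemma om_im (r : ℚ) : (om r).im = Real.sin (Real.pi * r) := by
  rw [om, Complex.exp_ofReal_mul_I_im]

lemma om_zero : om 0 = 1 := by simp [om]

lemma om_ne_zero (r : ℚ) : om r ≠ 0 := Complex.exp_ne_zero _

lemma lower {r : ℚ} (h1 : -(1 / 2) < r) : -(1 / 2 : ℝ) < r := by
  have := (Rat.cast_lt (K := ℝ)).2 h1
  push_cast at this
  exact this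

lemma upper {r : ℚ} (h1 : r < 1 / 2) : (r : ℝ) < 1 / 2 := by
  have := (Rat.cast_lt (K := ℝ)).2 h1
  push_cast at this
  exact this

lemma cos_pos {r : ℚ} (h1 : -(1 / 2) < r) (h2 : r < 1 / 2) : 0 < Real.cos (Real.pi * r) := by
  have h1' := lower h1
  have h2' := upper h2
  apply Real.cos_pos_of_mem_Ioo
  constructor <;> nlinarith [Real.pi_pos]

lemma om_re_pos {r : ℚ} (h1 : -(1 / 2) < r) (h2 : r < 1 / 2) : 0 < (om r).re := by
  rw [om_re]; exact cos_pos h1 h2

lemma log_om {r : ℚ} (h1 : -(1 / 2) < r) (h2 : r < 1 / 2) :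
    Complex.log (om r) = ((Real.pi * r : ℝ) : ℂ) * Complex.I := by
  have h1' := lower h1
  have h2' := upper h2
  have hpi := Real.pi_pos
  have him : (((Real.pi * r : ℝ) : ℂ) * Complex.I).im = Real.pi * r := by simp
  rw [om, Complex.log_exp]
  · rw [him]; nlinarith
  · rw [him]; nlinarith

/-! ### The integrals -/

lemma kernel_eq (r : ℚ) (x : ℝ) : (kernel r x : ℂ) =
    (Complex.exp (-(om r * x)) + Complex.exp (-(om (-r) * x))) / 2 -
      (1 - 6 * (r : ℂ) ^ 2) * Complex.exp (-(om 0 * x)) := by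
  have key : ∀ s : ℚ, Complex.exp (-(om s * x)) =
      ((Real.exp (-(x * Real.cos (Real.pi * s))) : ℝ) : ℂ) *
        (((Real.cos (x * Real.sin (Real.pi * s)) : ℝ) : ℂ) -
          ((Real.sin (x * Real.sin (Real.pi * s)) : ℝ) : ℂ) * Complex.I) := by
    intro s
    have e1 : -(om s * x) = ((-(x * Real.cos (Real.pi * s)) : ℝ) : ℂ) +
        ((-(x * Real.sin (Real.pi * s)) : ℝ) : ℂ) * Complex.I := by
      have : om s = ((om s).re : ℂ) + ((om s).im : ℂ) * Complex.I := (Complex.re_add_im _).symm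
      rw [this, om_re, om_im]
      push_cast
      ring
    rw [e1, Complex.exp_add, ← Complex.ofReal_exp, Complex.exp_mul_I, ← Complex.ofReal_cos,
      ← Complex.ofReal_sin, Real.cos_neg, Real.sin_neg]
    push_cast
    ring
  rw [key r, key (-r), om_zero, one_mul, kernel]
  have c1 : Real.pi * ((-r : ℚ) : ℝ) = -(Real.pi * r) := by push_cast; ring
  rw [c1, Real.cos_neg, Real.sin_neg, mul_neg, Real.cos_neg, Real.sin_neg]
  push_cast
  ring

open Lib.IncGamma in
lemma J_eq (j : ℕ) {r : ℚ} (h0 : 0 < r) (h1 : r < 1 / 2) : (J j r : ℂ) =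
    (T j (om r) + T j (om (-r))) / 2 - (1 - 6 * (r : ℂ) ^ 2) * T j (om 0) := by
  have i1 := integrableOn_T j (om_re_pos (r := r) (by linarith) h1)
  have i2 := integrableOn_T j (om_re_pos (r := -r) (by linarith) (by linarith))
  have i3 := integrableOn_T j (om_re_pos (r := 0) (by norm_num) (by norm_num))
  have e : ∀ x : ℝ, ((kernel r x * Real.log x ^ j / x : ℝ) : ℂ) =
      (1 / 2 : ℂ) * (Complex.exp (-(om r * x)) * (Real.log x : ℂ) ^ j / x) +
      (1 / 2 : ℂ) * (Complex.exp (-(om (-r) * x)) * (Real.log x : ℂ) ^ j / x) -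
      (1 - 6 * (r : ℂ) ^ 2) * (Complex.exp (-(om 0 * x)) * (Real.log x : ℂ) ^ j / x) := by
    intro x
    push_cast
    rw [kernel_eq]
    ring
  have i4 : Integrable (fun x : ℝ =>
      (1 / 2 : ℂ) * (Complex.exp (-(om r * x)) * (Real.log x : ℂ) ^ j / x) +
      (1 / 2 : ℂ) * (Complex.exp (-(om (-r) * x)) * (Real.log x : ℂ) ^ j / x))
      (volume.restrict (Ioi 1)) :=
    (i1.const_mul (1 / 2 : ℂ)).add (i2.const_mul (1 / 2 : ℂ))
  rw [J, ← integral_complex_ofReal, integral_congr_ae (Filter.Eventually.of_forall e),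
    integral_sub i4 (i3.const_mul _), integral_add (i1.const_mul _) (i2.const_mul _),
    integral_const_mul, integral_const_mul, integral_const_mul]
  rw [T, T, T]
  ring

lemma integrableOn_J (j : ℕ) {r : ℚ} (h0 : 0 < r) (h1 : r < 1 / 2) :
    IntegrableOn (fun x : ℝ => kernel r x * Real.log x ^ j / x) (Ioi 1) := by
  have i1 := Lib.IncGamma.integrableOn_T j (om_re_pos (r := r) (by linarith) h1)
  have i2 := Lib.IncGamma.integrableOn_T j (om_re_pos (r := -r) (by linarith) (by linarith))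
  have i3 := Lib.IncGamma.integrableOn_T j (om_re_pos (r := 0) (by norm_num) (by norm_num))
  have i4 := ((i1.const_mul (1 / 2 : ℂ)).add (i2.const_mul (1 / 2 : ℂ))).sub
    (i3.const_mul (1 - 6 * (r : ℂ) ^ 2))
  have i5 := i4.re
  refine i5.congr (Filter.Eventually.of_forall fun x => ?_)
  have e : ((kernel r x * Real.log x ^ j / x : ℝ) : ℂ) =
      (1 / 2 : ℂ) * (Complex.exp (-(om r * x)) * (Real.log x : ℂ) ^ j / x) +
      (1 / 2 : ℂ) * (Complex.exp (-(om (-r) * x)) * (Real.log x : ℂ) ^ j / x) -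
      (1 - 6 * (r : ℂ) ^ 2) * (Complex.exp (-(om 0 * x)) * (Real.log x : ℂ) ^ j / x) := by
    push_cast
    rw [kernel_eq]
    ring
  simp only [Pi.add_apply, Pi.sub_apply]
  rw [← e]
  exact Complex.ofReal_re _

/-- The part given by an element of the algebra of E-functions. -/
noncomputable def Y (j : ℕ) (r : ℚ) : ℂ :=
  Lib.IncGamma.Lc (j + 1) (-om r) + Lib.IncGamma.Lc (j + 1) (-om (-r)) -
    2 * (1 - 6 * (r : ℂ) ^ 2) * Lib.IncGamma.Lc (j + 1) (-om 0)

open Lib.GammaMoments in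
lemma Y_zero {r : ℚ} (h0 : 0 < r) (h1 : r < 1 / 2) :
    Y 0 r = -2 * (J 0 r : ℂ) - 12 * (r : ℂ) ^ 2 * (Real.eulerMascheroniConstant : ℂ) := by
  rw [J_eq 0 h0 h1, Lib.IncGamma.T_zero (om_re_pos (by linarith) h1),
    Lib.IncGamma.T_zero (om_re_pos (by linarith) (by linarith)),
    Lib.IncGamma.T_zero (om_re_pos (by norm_num) (by norm_num)),
    log_om (by linarith) h1, log_om (r := -r) (by linarith) (by linarith),
    log_om (r := 0) (by norm_num) (by norm_num), m_one, Y]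
  push_cast
  ring

open Lib.GammaMoments in
lemma Y_one {r : ℚ} (h0 : 0 < r) (h1 : r < 1 / 2) :
    Y 1 r = 2 * (J 1 r : ℂ) - 6 * (r : ℂ) ^ 2 * (Real.eulerMascheroniConstant : ℂ) ^ 2 := by
  rw [J_eq 1 h0 h1, Lib.IncGamma.T_one (om_re_pos (by linarith) h1),
    Lib.IncGamma.T_one (om_re_pos (by linarith) (by linarith)),
    Lib.IncGamma.T_one (om_re_pos (by norm_num) (by norm_num)),
    log_om (by linarith) h1, log_om (r := -r) (by linarith) (by linarith),
    log_om (r := 0) (by norm_num) (by norm_num), m_one, m_two, Y]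
  push_cast
  ring_nf
  simp only [Complex.I_sq]
  ring

open Lib.GammaMoments in
lemma Y_two {r : ℚ} (h0 : 0 < r) (h1 : r < 1 / 2) :
    Y 2 r = -(J 2 r : ℂ) - 2 * (r : ℂ) ^ 2 * ((Real.eulerMascheroniConstant : ℂ) ^ 3 +
      2 * (zetaThree : ℂ)) := by
  rw [J_eq 2 h0 h1, Lib.IncGamma.T_two (om_re_pos (by linarith) h1),
    Lib.IncGamma.T_two (om_re_pos (by linarith) (by linarith)),
    Lib.IncGamma.T_two (om_re_pos (by norm_num) (by norm_num)),
    log_om (by linarith) h1, log_om (r := -r) (by linarith) (by linarith),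
    log_om (r := 0) (by norm_num) (by norm_num), m_one, m_two, m_three, Y, zetaThree]
  push_cast
  ring_nf
  simp only [Complex.I_sq]
  ring

/-! ### Independence -/

/-- The exponential sums are algebraically independent. -/
lemma algInd_Y (P : Finset (ℕ × ℚ)) (hP : ∀ p ∈ P, 0 < p.2 ∧ p.2 < 1 / 2) :
    AlgebraicIndependent EF.expField (fun p : {p : ℕ × ℚ // p ∈ P} => Y p.1.1 p.1.2) := by
  have hneg : ∀ r : ℚ, -om r ≠ 0 := fun r => neg_ne_zero.2 (om_ne_zero r)
  let q : ℚ → EF.QB := fun r => EF.toQB (-om r) (om_alg r).neg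
  have hq : ∀ r, q r ≠ 0 := fun r h => hneg r (congrArg (fun t : EF.QB => (t : ℂ)) h)
  have hqe : ∀ r s, q r = q s → om r = om s := fun r s h =>
    neg_inj.1 (congrArg (fun t : EF.QB => (t : ℂ)) h)
  have hsin : ∀ r : ℚ, 0 < r → r < 1 / 2 → 0 < (om r).im := by
    intro r h0 h1
    rw [om_im]
    have h1' := upper h1
    have h0' : (0 : ℝ) < r := by exact_mod_cast h0
    apply Real.sin_pos_of_pos_of_lt_pi
    · exact mul_pos Real.pi_pos h0'
    · nlinarith [Real.pi_pos]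
  have hsin' : ∀ r : ℚ, (om (-r)).im = -(om r).im := by
    intro r
    rw [om_im, om_im]
    have c1 : Real.pi * ((-r : ℚ) : ℝ) = -(Real.pi * r) := by push_cast; ring
    rw [c1, Real.sin_neg]
  have h := EF.algInd_three (K := EF.QB) (ι := {p : ℕ × ℚ // p ∈ P}) (fun p => p.1.1)
    (fun p => q p.1.2) (fun p => q (-p.1.2)) (fun _ => q 0)
    (fun p => ((2 * (1 - 6 * p.1.2 ^ 2) : ℚ) : EF.QB)) (fun p => hq _) (fun p => hq _)
    (fun p => hq _) ?_ ?_ ?_
  · have h2 := EF.algInd_transport h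
    convert h2 using 1
    funext p
    have hL : ∀ r : ℚ, EF.evW EF.phi (EF.LW p.1.1 (q r)) = Lib.IncGamma.Lc (p.1.1 + 1) (-om r) := by
      intro r
      rw [EF.evW_LW _ (hq r)]
      rfl
    rw [map_sub, map_add, Algebra.smul_def, map_mul, EF.evW_algebraMap, hL, hL, hL, map_ratCast, Y]
    push_cast
    rfl
  · intro p p' h
    have h3 := congrArg Complex.im (hqe _ _ h)
    rw [hsin'] at h3
    have := hsin _ (hP _ p.2).1 (hP _ p.2).2
    have := hsin _ (hP _ p'.2).1 (hP _ p'.2).2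
    linarith
  · intro p p' h
    have h3 := congrArg Complex.im (hqe _ _ h)
    have := hsin _ (hP _ p.2).1 (hP _ p.2).2
    rw [om_zero, Complex.one_im] at h3
    linarith
  · rintro ⟨⟨j, r⟩, hp⟩ ⟨⟨j', r'⟩, hp'⟩ h1 h2
    simp only at h1 h2
    have h3 := hqe _ _ h2
    have hr := hP _ hp
    have hr' := hP _ hp'
    simp only at hr hr'
    have h4 : ((Real.pi * r : ℝ) : ℂ) * Complex.I = ((Real.pi * r' : ℝ) : ℂ) * Complex.I := by
      rw [← log_om (by linarith [hr.1]) hr.2, ← log_om (by linarith [hr'.1]) hr'.2, h3]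
    have h5 : (Real.pi * r : ℝ) = Real.pi * r' := by
      exact_mod_cast mul_right_cancel₀ Complex.I_ne_zero h4
    have h6 : (r : ℝ) = r' := mul_left_cancel₀ Real.pi_pos.ne' h5
    have h7 : r = r' := by exact_mod_cast h6
    subst h7
    subst h1
    rfl

/-- The constants `γ`, `γ²`, `γ³ + 2 ζ(3)`. -/
noncomputable def const (j : ℕ) : ℝ :=
  if j = 2 then Real.eulerMascheroniConstant ^ 3 + 2 * zetaThree
  else Real.eulerMascheroniConstant ^ (j + 1)

theorem degree (P : Finset (ℕ × ℚ)) (hP : ∀ p ∈ P, p.1 ≤ 2 ∧ 0 < p.2 ∧ p.2 < 1 / 2) :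
    (P.card : Cardinal) ≤ Algebra.trdeg M (IntermediateField.adjoin M
      ((fun p : ℕ × ℚ => (const p.1 : ℂ)) '' P ∪ (fun p : ℕ × ℚ => (J p.1 p.2 : ℂ)) '' P)) := by
  classical
  set N := IntermediateField.adjoin M
      ((fun p : ℕ × ℚ => (const p.1 : ℂ)) '' P ∪ (fun p : ℕ × ℚ => (J p.1 p.2 : ℂ)) '' P) with hN
  have hc : ∀ p ∈ P, (const p.1 : ℂ) ∈ N := fun p hp =>
    IntermediateField.subset_adjoin _ _ (Or.inl ⟨p, hp, rfl⟩)
  have hJ : ∀ p ∈ P, (J p.1 p.2 : ℂ) ∈ N := fun p hp =>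
    IntermediateField.subset_adjoin _ _ (Or.inr ⟨p, hp, rfl⟩)
  have hQ : ∀ q : ℚ, (q : ℂ) ∈ N := fun q => by simp
  have hY : ∀ p ∈ P, Y p.1 p.2 ∈ N := by
    rintro ⟨j, r⟩ hp
    obtain ⟨hj, h0, h1⟩ := hP _ hp
    have hJp := hJ _ hp
    have hcp := hc _ hp
    simp only at hj h0 h1 hJp hcp ⊢
    interval_cases j
    · rw [Y_zero h0 h1]
      rw [const, if_neg (by norm_num)] at hcp
      simp only [zero_add, pow_one] at hcp
      have e1 := hQ (-2)
      have e2 := hQ (12 * r ^ 2)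
      push_cast at e1 e2
      exact N.sub_mem (N.mul_mem e1 hJp) (N.mul_mem e2 hcp)
    · rw [Y_one h0 h1]
      rw [const, if_neg (by norm_num)] at hcp
      simp only [Nat.reduceAdd] at hcp
      push_cast at hcp
      have e1 := hQ 2
      have e2 := hQ (6 * r ^ 2)
      push_cast at e1 e2
      exact N.sub_mem (N.mul_mem e1 hJp) (N.mul_mem e2 hcp)
    · rw [Y_two h0 h1]
      rw [const, if_pos rfl] at hcp
      push_cast at hcp
      have e2 := hQ (2 * r ^ 2)
      push_cast at e2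
      exact N.sub_mem (N.neg_mem hJp) (N.mul_mem e2 hcp)
  have h2 := algInd_Y P (fun p hp => (hP p hp).2)
  have h3 : AlgebraicIndependent M (fun p : {p : ℕ × ℚ // p ∈ P} => (⟨_, hY p.1 p.2⟩ : N)) := by
    rw [← AlgHom.algebraicIndependent_iff N.val Subtype.val_injective]
    exact h2
  have h4 := h3.cardinalMk_le_trdeg
  refine le_trans ?_ h4
  rw [Cardinal.mk_coe_finset]

/-- **Main theorem.** -/
theorem result (P : Finset (ℕ × ℚ)) (hP : ∀ p ∈ P, p.1 ≤ 2 ∧ 0 < p.2 ∧ p.2 < 1 / 2) :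
    (∀ p ∈ P, IntegrableOn (fun x : ℝ => kernel p.2 x * Real.log x ^ p.1 / x) (Ioi 1)) ∧
    (P.card : Cardinal) ≤ Algebra.trdeg M (IntermediateField.adjoin M
      ((fun p : ℕ × ℚ => (const p.1 : ℂ)) '' P ∪ (fun p : ℕ × ℚ => (J p.1 p.2 : ℂ)) '' P)) :=
  ⟨fun p hp => integrableOn_J p.1 (hP p hp).2.1 (hP p hp).2.2, degree P hP⟩

end Pool.Agent.Results.MP_e48a95_nt.TwistedTails
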